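import Pool.Agent.H852R2.TE.S.EXPOB2
import Pool.Agent.H769R2.EX.BPART

/-! Task BPARTE: random `b` is good, levels `n^s ≤ j ≤ n^(s+δ)` -/

namespace TE852
open RC14 RC852 Finset Filter Equiv

namespace BPARTE

/-- the numerical estimate: first term of `EXPOB2` -/
theorem numeric1 (N y H : ℝ) (j J K' : ℕ) (hy : y ^ 32 = N) (hy2 : 4 ≤ y) (hHy : H ≤ y)
    (hH : 0 < H) (hK : N / (32 * H) ≤ K') (hJ : (2 * J : ℝ) ≤ N) :
    (J : ℝ) * N / (K' : ℝ) ^ (4 * j + 3) ≤ (1 / N) ^ (3 * j) := by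
  have hy0 : 0 < y := by linarith
  have hN0 : 0 < N := by rw [← hy]; positivity
  have hK2 : y ^ 31 / 32 ≤ K' := by
    refine le_trans ?_ hK
    rw [← hy, div_le_div_iff₀ (by norm_num) (by positivity)]
    calc y ^ 31 * (32 * H) ≤ y ^ 31 * (32 * y) := by gcongr
      _ = y ^ 32 * 32 := by ring
  have hK0 : (0 : ℝ) < K' := lt_of_lt_of_le (by positivity) hK2
  have h3 : N * N ≤ (K' : ℝ) ^ 3 := by
    refine le_trans ?_ (pow_le_pow_left₀ (by positivity) hK2 3)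
    have h5 : (32 ^ 3 : ℝ) ≤ y ^ 29 := by
      calc (32 ^ 3 : ℝ) ≤ 4 ^ 29 := by norm_num
        _ ≤ y ^ 29 := pow_le_pow_left₀ (by norm_num) hy2 29
    rw [← hy]
    calc y ^ 32 * y ^ 32 = (32 ^ 3 : ℝ) * y ^ 64 / 32 ^ 3 := by ring
      _ ≤ y ^ 29 * y ^ 64 / 32 ^ 3 := by gcongr
      _ = (y ^ 31 / 32) ^ 3 := by ring
  have h4 : N ^ 3 ≤ (K' : ℝ) ^ 4 := by
    refine le_trans ?_ (pow_le_pow_left₀ (by positivity) hK2 4)
    have h5 : (32 ^ 4 : ℝ) ≤ y ^ 28 := by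
      calc (32 ^ 4 : ℝ) ≤ 4 ^ 28 := by norm_num
        _ ≤ y ^ 28 := pow_le_pow_left₀ (by norm_num) hy2 28
    rw [← hy]
    calc (y ^ 32) ^ 3 = (32 ^ 4 : ℝ) * y ^ 96 / 32 ^ 4 := by ring
      _ ≤ y ^ 28 * y ^ 96 / 32 ^ 4 := by gcongr
      _ = (y ^ 31 / 32) ^ 4 := by ring
  have hJN : (J : ℝ) ≤ N := by
    have : (0 : ℝ) ≤ J := Nat.cast_nonneg _
    linarith
  rw [one_div, inv_pow, div_le_iff₀ (by positivity), inv_mul_eq_div, le_div_iff₀ (by positivity)]
  calc (J : ℝ) * N * N ^ (3 * j) ≤ N * N * (N ^ 3) ^ j := by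
        rw [← pow_mul]
        gcongr
    _ ≤ (K' : ℝ) ^ 3 * ((K' : ℝ) ^ 4) ^ j := by gcongr
    _ = (K' : ℝ) ^ (4 * j + 3) := by
        rw [← pow_mul, pow_add]
        ring

/-- the numerical estimate: second term of `EXPOB2` -/
theorem numeric2 (N y H D : ℝ) (j r L F : ℕ) (hy : y ^ 32 = N) (hHy : H ≤ y)
    (hH : 102400 ≤ H) (hD : D = H ^ 2) (hF : N / H ≤ F) (hr : 1 ≤ r) (hrj : r ≤ j)
    (hL : j ≤ r * L) (hJ : (2 * (64 * L : ℕ) : ℝ) ≤ 400 * D) :
    (2 * N / F : ℝ) ^ r * (2 ^ ((r + 1) * (64 * L)) *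
      (2 * (64 * L : ℕ) / N : ℝ) ^ (r * (64 * L / 4 + 1))) ≤ (1 / N) ^ (3 * j) := by
  have hH0 : 0 < H := by linarith
  have hy0 : 0 < y := by linarith
  have hN0 : 0 < N := by rw [← hy]; positivity
  have hD0 : 0 < D := by rw [hD]; positivity
  have hy1 : 1 ≤ y := by linarith
  have hN1 : 1 ≤ N := by rw [← hy]; exact one_le_pow₀ hy1
  have hF0 : (0 : ℝ) < F := lt_of_lt_of_le (by positivity) hF
  -- `(2N/F)^r ≤ D^j`
  have a1 : (2 * N / F : ℝ) ^ r ≤ D ^ j := by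
    have h1 : (2 * N / F : ℝ) ≤ D := by
      rw [div_le_iff₀ hF0]
      have h2 : N ≤ F * H := (div_le_iff₀ hH0).1 hF
      calc 2 * N ≤ 2 * (F * H) := by linarith
        _ ≤ H * (F * H) := by
          have : 0 ≤ (F : ℝ) * H := by positivity
          nlinarith
        _ = D * F := by rw [hD]; ring
    have hD1 : 1 ≤ D := by rw [hD]; nlinarith
    calc (2 * N / F : ℝ) ^ r ≤ D ^ r := pow_le_pow_left₀ (by positivity) h1 r
      _ ≤ D ^ j := pow_le_pow_right₀ hD1 hrj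
  obtain ⟨Q, hQ⟩ : ∃ Q : ℕ, Q = r * L := ⟨_, rfl⟩
  have hDN : D ^ 2 / N ≤ 1 := by
    rw [div_le_one hN0, hD, ← hy, ← pow_mul]
    calc H ^ (2 * 2) ≤ y ^ (2 * 2) := pow_le_pow_left₀ hH0.le hHy _
      _ ≤ y ^ 32 := pow_le_pow_right₀ hy1 (by norm_num)
  -- `2J/N ≤ 1`
  have hx0 : 0 ≤ (2 * (64 * L : ℕ) / N : ℝ) := by positivity
  have hx : 256 * (2 * (64 * L : ℕ) / N : ℝ) ≤ D ^ 2 / N := by
    rw [← mul_div_assoc]
    apply div_le_div_of_nonneg_right _ hN0.le
    calc 256 * (2 * (64 * L : ℕ) : ℝ) ≤ 256 * (400 * D) := by gcongr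
      _ = 102400 * D := by ring
      _ ≤ D * D := by
        apply mul_le_mul_of_nonneg_right _ hD0.le
        rw [hD]
        nlinarith
      _ = D ^ 2 := by ring
  have hx1 : (2 * (64 * L : ℕ) / N : ℝ) ≤ 1 := by
    linarith
  have a2 : (2 : ℝ) ^ ((r + 1) * (64 * L)) *
      (2 * (64 * L : ℕ) / N : ℝ) ^ (r * (64 * L / 4 + 1)) ≤ (D ^ 2 / N) ^ (16 * j) := by
    have e1 : (2 : ℝ) ^ ((r + 1) * (64 * L)) ≤ 256 ^ (16 * Q) := by
      have : (256 : ℝ) = 2 ^ 8 := by norm_num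
      rw [this, ← pow_mul]
      apply pow_le_pow_right₀ (by norm_num)
      rw [hQ]
      have : (r + 1) * (64 * L) ≤ (2 * r) * (64 * L) := by gcongr; omega
      calc (r + 1) * (64 * L) ≤ (2 * r) * (64 * L) := this
        _ = 8 * (16 * (r * L)) := by ring
    have e2 : (2 * (64 * L : ℕ) / N : ℝ) ^ (r * (64 * L / 4 + 1)) ≤
        (2 * (64 * L : ℕ) / N : ℝ) ^ (16 * Q) := by
      apply pow_le_pow_of_le_one hx0 hx1
      rw [hQ]
      have : 16 * L ≤ 64 * L / 4 + 1 := by omega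
      calc 16 * (r * L) = r * (16 * L) := by ring
        _ ≤ _ := Nat.mul_le_mul_left r this
    calc (2 : ℝ) ^ ((r + 1) * (64 * L)) * (2 * (64 * L : ℕ) / N : ℝ) ^ (r * (64 * L / 4 + 1))
        ≤ 256 ^ (16 * Q) * (2 * (64 * L : ℕ) / N : ℝ) ^ (16 * Q) := by gcongr
      _ = (256 * (2 * (64 * L : ℕ) / N : ℝ)) ^ (16 * Q) := by rw [mul_pow]
      _ ≤ (D ^ 2 / N) ^ (16 * Q) := pow_le_pow_left₀ (by positivity) hx _
      _ ≤ (D ^ 2 / N) ^ (16 * j) := by
        apply pow_le_pow_of_le_one (by positivity) hDN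
        rw [hQ]
        omega
  have a3 : D ^ j * (D ^ 2 / N) ^ (16 * j) ≤ (1 / N) ^ (3 * j) := by
    rw [pow_mul, pow_mul, ← mul_pow]
    apply pow_le_pow_left₀ (by positivity)
    have h1 : D ^ 33 ≤ N ^ 13 := by
      rw [hD, ← hy, ← pow_mul, ← pow_mul]
      calc H ^ (2 * 33) ≤ y ^ (2 * 33) := pow_le_pow_left₀ hH0.le hHy _
        _ ≤ y ^ (32 * 13) := pow_le_pow_right₀ hy1 (by norm_num)
    have h2 : D * (D ^ 2 / N) ^ 16 = D ^ 33 / N ^ 16 := by
      rw [div_pow, ← pow_mul]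
      field_simp
    rw [h2, one_div, inv_pow, div_le_iff₀ (by positivity), inv_mul_eq_div,
      le_div_iff₀ (by positivity)]
    calc D ^ 33 * N ^ 3 ≤ N ^ 13 * N ^ 3 := by gcongr
      _ = N ^ 16 := by ring
  calc _ ≤ D ^ j * (D ^ 2 / N) ^ (16 * j) := by gcongr
    _ ≤ _ := a3

end BPARTE

/-- the new letters `b` are good with probability `1 - 1/n` -/
theorem BPARTE (δ s : ℝ) (hδ : 0 < δ) (hδ1 : δ ≤ 1 / 16) (hs : 0 ≤ s) (hs1 : s + 3 * δ ≤ 1) :
    ∀ᶠ n : ℕ in atTop, ∀ q : ℕ, 1 ≤ q → ∀ (K : Type) [Fintype K] [Nonempty K]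
    (g : K → Perm (Fin n)), MixT (Rr s n) g →
    (Nat.card {b : Fin q → Alt n // ¬ GoodE δ s g (cb b)} : ℝ) ≤
      1 / (n : ℝ) * (Fintype.card (Alt n) : ℝ) ^ q := by
  classical
  have hT : Tendsto (fun n : ℕ => (n : ℝ)) atTop atTop := tendsto_natCast_atTop_atTop
  have hTd : Tendsto (fun n : ℕ => (n : ℝ) ^ (δ / 2)) atTop atTop :=
    (tendsto_rpow_atTop (by positivity)).comp hT
  filter_upwards [hT.eventually_ge_atTop ((2 : ℝ) ^ 64),
    hTd.eventually_ge_atTop (102400 : ℝ)] with n hn64 hH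
  intro q hq K _ _ g hg
  have hn0 : (0 : ℝ) < n := lt_of_lt_of_le (by positivity) hn64
  have hn1 : (1 : ℝ) ≤ n := le_trans (by norm_num) hn64
  have hnN : 1 ≤ n := by exact_mod_cast hn1
  -- powers of `n`
  obtain ⟨H, hHd⟩ : ∃ H : ℝ, H = (n : ℝ) ^ (δ / 2) := ⟨_, rfl⟩
  rw [← hHd] at hH
  have hH0 : 0 < H := by linarith
  obtain ⟨y, hyd⟩ : ∃ y : ℝ, y = (n : ℝ) ^ ((1 : ℝ) / 32) := ⟨_, rfl⟩
  have hy32 : y ^ 32 = n := by
    rw [hyd, ← Real.rpow_natCast, ← Real.rpow_mul hn0.le]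
    norm_num
  have hy4 : (4 : ℝ) ≤ y := by
    calc (4 : ℝ) = ((2 : ℝ) ^ 64) ^ ((1 : ℝ) / 32) := by
          rw [← Real.rpow_natCast, ← Real.rpow_mul (by norm_num)]
          norm_num
      _ ≤ (n : ℝ) ^ ((1 : ℝ) / 32) := Real.rpow_le_rpow (by positivity) hn64 (by norm_num)
      _ = y := hyd.symm
  have hHy : H ≤ y := by
    rw [hHd, hyd]
    exact Real.rpow_le_rpow_of_exponent_le hn1 (by linarith)
  obtain ⟨D, hDd⟩ : ∃ D : ℝ, D = H ^ 2 := ⟨_, rfl⟩
  have hDn : D = (n : ℝ) ^ δ := by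
    rw [hDd, hHd, ← Real.rpow_natCast, ← Real.rpow_mul hn0.le]
    congr 1
    push_cast
    ring
  have hD0 : 0 < D := by rw [hDd]; positivity
  have hD1 : 1 ≤ D := by rw [hDd]; nlinarith
  have hHD : 102400 * H ≤ D := by rw [hDd]; nlinarith
  -- the quantity `S = n^s`
  obtain ⟨S, hSd⟩ : ∃ S : ℝ, S = (n : ℝ) ^ s := ⟨_, rfl⟩
  have hS1 : 1 ≤ S := by rw [hSd]; exact Real.one_le_rpow hn1 hs
  have hSD : (n : ℝ) ^ (s + δ) = S * D := by
    rw [Real.rpow_add hn0, hSd, hDn]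
  have hSDn : S * D * D ^ 2 ≤ n := by
    have h1 : S * D * D ^ 2 = (n : ℝ) ^ (s + 3 * δ) := by
      rw [hSd, hDn, ← Real.rpow_natCast, ← Real.rpow_mul hn0.le, ← Real.rpow_add hn0,
        ← Real.rpow_add hn0]
      congr 1
      push_cast
      ring
    rw [h1]
    calc (n : ℝ) ^ (s + 3 * δ) ≤ (n : ℝ) ^ (1 : ℝ) := Real.rpow_le_rpow_of_exponent_le hn1 hs1
      _ = n := Real.rpow_one _
  -- `r`
  obtain ⟨r, hrd⟩ : ∃ r : ℕ, r = Rr s n := ⟨_, rfl⟩
  have hrS : (r : ℝ) ≤ S := by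
    rw [hrd, hSd]
    exact Nat.floor_le (by positivity)
  have hr1 : 1 ≤ r := by
    rw [hrd]
    unfold Rr
    apply Nat.le_floor
    rw [← hSd]
    exact_mod_cast hS1
  have hr1' : (1 : ℝ) ≤ r := by exact_mod_cast hr1
  have hrS2 : S ≤ 2 * r := by
    have h1 : S < r + 1 := by
      rw [hrd, hSd]
      exact Nat.lt_floor_add_one _
    linarith
  -- `F`
  obtain ⟨F, hFd⟩ : ∃ F : ℕ, F = FE δ n := ⟨_, rfl⟩
  have hnH : (n : ℝ) ^ (1 - δ / 2) = n / H := by
    rw [Real.rpow_sub hn0, Real.rpow_one, hHd]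
  have hF0 : (n : ℝ) / H ≤ F := by
    rw [hFd, ← hnH]
    exact Nat.le_ceil _
  have hFn : F ≤ n := by
    rw [hFd]
    unfold FE
    apply Nat.ceil_le.2
    calc (n : ℝ) ^ (1 - δ / 2) ≤ (n : ℝ) ^ (1 : ℝ) :=
          Real.rpow_le_rpow_of_exponent_le hn1 (by linarith)
      _ = n := Real.rpow_one _
  have hnH32 : (n : ℝ) / H ≥ 64 := by
    rw [ge_iff_le, le_div_iff₀ hH0]
    calc 64 * H ≤ y ^ 3 * y := by
          have h64 : (64 : ℝ) ≤ y ^ 3 := by
            calc (64 : ℝ) = 4 ^ 3 := by norm_num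
              _ ≤ y ^ 3 := pow_le_pow_left₀ (by norm_num) hy4 3
          exact mul_le_mul h64 hHy hH0.le (by positivity)
      _ = y ^ 4 := by ring
      _ ≤ y ^ 32 := pow_le_pow_right₀ (by linarith) (by norm_num)
      _ = n := hy32
  obtain ⟨K', hKd⟩ : ∃ K' : ℕ, K' = F / 16 := ⟨_, rfl⟩
  have hK1 : (F : ℝ) < 16 * (K' + 1) := by
    have h5 : F < 16 * (K' + 1) := by omega
    exact_mod_cast h5
  have hK2 : (n : ℝ) / (32 * H) ≤ K' := by
    have h1 : (n : ℝ) / (32 * H) = n / H / 32 := by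
      rw [div_div]
      congr 1
      ring
    rw [h1]
    linarith
  have hK'pos : 1 ≤ K' := by
    have h1 : (0 : ℝ) < n / (32 * H) := by positivity
    have : (0 : ℝ) < K' := lt_of_lt_of_le h1 hK2
    exact_mod_cast this
  have hSD2 : S * D ≤ n / D ^ 2 := by
    rw [le_div_iff₀ (by positivity)]
    exact hSDn
  have hDD : n / D ^ 2 * D ≤ n / (102400 * H) := by
    rw [div_mul_eq_mul_div, div_le_div_iff₀ (by positivity) (by positivity)]
    calc (n : ℝ) * D * (102400 * H) = (n * D) * (102400 * H) := by ring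
      _ ≤ (n * D) * D := by gcongr
      _ = n * D ^ 2 := by ring
  have hrF : 2 * r ≤ F := by
    have h1 : (2 * r : ℝ) ≤ F := by
      refine le_trans ?_ hF0
      have h2 : S ≤ n / D ^ 2 * D := by
        calc S = S * 1 := (mul_one S).symm
          _ ≤ S * D := by gcongr
          _ ≤ n / D ^ 2 := hSD2
          _ = n / D ^ 2 * 1 := (mul_one _).symm
          _ ≤ n / D ^ 2 * D := by gcongr
      calc (2 * r : ℝ) ≤ 2 * S := by linarith
        _ ≤ 2 * (n / (102400 * H)) := by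
          have := h2.trans hDD
          linarith
        _ = (n / H) * (2 / 102400) := by
          field_simp
        _ ≤ (n / H) * 1 := by
          apply mul_le_mul_of_nonneg_left (by norm_num) (by positivity)
        _ = n / H := mul_one _
    exact_mod_cast h1
  have hA0 : (0 : ℝ) < (Fintype.card (Alt n) : ℝ) := by
    have : 0 < Fintype.card (Alt n) := Fintype.card_pos
    exact_mod_cast this
  have : NeZero q := ⟨by omega⟩
  have hC0 : (0 : ℝ) < (Fintype.card (K × (Fin q × Bool)) : ℝ) := by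
    have : 0 < Fintype.card (K × (Fin q × Bool)) := Fintype.card_pos
    exact_mod_cast this
  -- one level
  have hlevel : ∀ j, 1 ≤ j → j ≤ Rr (s + δ) n →
      (Nat.card {b : Fin q → Alt n // ¬ (r ≤ j → (Nat.card {w : Fin (2 * LL r j) →
        K × (Fin q × Bool) // 2 * F ≤ nfix (bwd g (cb b) w)} : ℝ) ≤
      (1 / (n : ℝ)) ^ j * (Fintype.card (K × (Fin q × Bool)) : ℝ) ^ (2 * LL r j))} : ℝ) ≤
      2 * (1 / (n : ℝ)) ^ 2 * (Fintype.card (Alt n) : ℝ) ^ q := by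
    intro j hj1 hj2
    by_cases hrj : r ≤ j
    swap
    · have : IsEmpty {b : Fin q → Alt n // ¬ (r ≤ j → (Nat.card {w : Fin (2 * LL r j) →
        K × (Fin q × Bool) // 2 * F ≤ nfix (bwd g (cb b) w)} : ℝ) ≤
      (1 / (n : ℝ)) ^ j * (Fintype.card (K × (Fin q × Bool)) : ℝ) ^ (2 * LL r j))} :=
        ⟨fun b => b.2 fun h => absurd h hrj⟩
      rw [Nat.card_of_isEmpty, Nat.cast_zero]
      positivity
    have hj1' : (1 : ℝ) ≤ j := by exact_mod_cast hj1
    have hjSD : (j : ℝ) ≤ S * D := by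
      have h5 : (Rr (s + δ) n : ℝ) ≤ (n : ℝ) ^ (s + δ) := Nat.floor_le (by positivity)
      have h6 : (j : ℝ) ≤ Rr (s + δ) n := by exact_mod_cast hj2
      rw [hSD] at h5
      exact h6.trans h5
    obtain ⟨L, hLd⟩ : ∃ L : ℕ, L = j / r + 1 := ⟨_, rfl⟩
    have hJL : 2 * LL r j = 64 * L := by
      unfold LL
      rw [hLd]
      ring
    have hLj : j ≤ r * L := by
      rw [hLd]
      have := Nat.lt_mul_div_succ j (by omega : 0 < r)
      omega
    have hLr : (L : ℝ) ≤ 2 * D + 1 := by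
      rw [hLd]
      push_cast
      have h1 : ((j / r : ℕ) : ℝ) ≤ (j : ℝ) / r := Nat.cast_div_le
      have h2 : (j : ℝ) / r ≤ 2 * D := by
        rw [div_le_iff₀ (by linarith)]
        calc (j : ℝ) ≤ S * D := hjSD
          _ ≤ (2 * r) * D := by gcongr
          _ = 2 * D * r := by ring
      linarith
    have hJD : ((64 * L : ℕ) : ℝ) ≤ 200 * D := by
      push_cast
      linarith
    have hDN : 400 * D ≤ n := by
      calc 400 * D ≤ D * D := by
            apply mul_le_mul_of_nonneg_right _ hD0.le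
            rw [hDd]
            nlinarith
        _ = 1 * D ^ 2 := by ring
        _ ≤ S * D * D ^ 2 := by
            apply mul_le_mul_of_nonneg_right _ (by positivity)
            nlinarith
        _ ≤ n := hSDn
    have hJn : 2 * (64 * L) ≤ n := by
      have h6 : ((2 * (64 * L) : ℕ) : ℝ) ≤ n := by
        push_cast at hJD ⊢
        linarith
      exact_mod_cast h6
    have hL1 : 1 ≤ L := by rw [hLd]; exact Nat.le_add_left 1 _
    have hF : 4 * ((4 * j + 3) * (3 * (64 * L) + 1) + K') ≤ F := by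
      have h5 : (8 * ((4 * j + 3) * (3 * (64 * L) + 1) : ℕ) : ℝ) ≤ F := by
        refine le_trans ?_ hF0
        have hJ1 : (64 : ℝ) ≤ ((64 * L : ℕ) : ℝ) := by
          have : 64 ≤ 64 * L := by omega
          exact_mod_cast this
        push_cast at hJD hJ1 ⊢
        calc (8 : ℝ) * ((4 * j + 3) * (3 * (64 * L) + 1)) ≤
            8 * ((7 * j) * (4 * (64 * L))) := by
              gcongr
              · linarith
              · linarith
          _ ≤ 8 * ((7 * j) * (4 * (200 * D))) := by gcongr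
          _ = 44800 * (j * D) := by ring
          _ ≤ 44800 * ((S * D) * D) := by gcongr
          _ ≤ 44800 * ((n / D ^ 2) * D) := by gcongr
          _ ≤ 44800 * (n / (102400 * H)) := by gcongr
          _ = (n / H) * (44800 / 102400) := by field_simp
          _ ≤ (n / H) * 1 := by
            apply mul_le_mul_of_nonneg_left (by norm_num) (by positivity)
          _ = n / H := mul_one _
      have h6 : 8 * ((4 * j + 3) * (3 * (64 * L) + 1)) ≤ F := by exact_mod_cast h5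
      omega
    have hE := EXPOB2 n q (64 * L) r F (4 * j + 3) K' hq (by omega) hJn hr1 hrF hFn hK'pos
      ⟨2 * j + 1, by ring⟩ g (by rw [hrd]; exact hg) hF
    have hnum1 := BPARTE.numeric1 n y H j (64 * L) K' hy32 hy4 hHy hH0 hK2
      (by exact_mod_cast hJn)
    have hnum2 := BPARTE.numeric2 n y H D j r L F hy32 hHy hH hDd hF0 hr1 hrj hLj
      (by push_cast at hJD ⊢; linarith)
    have hpairs := BPART.card_pairs (X := Fin q → Alt n)
      (Y := Fin (64 * L) → K × (Fin q × Bool))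
      (fun b w => 2 * F ≤ nfix (bwd g (cb b) w))
    have hE' : (Nat.card {p : (Fin q → Alt n) × (Fin (64 * L) → K × (Fin q × Bool)) //
        2 * F ≤ nfix (bwd g (cb p.1) p.2)} : ℝ) ≤ 2 * (1 / (n : ℝ)) ^ (3 * j) *
        ((Fintype.card (Alt n) : ℝ) ^ q *
          (Fintype.card (K × (Fin q × Bool)) : ℝ) ^ (64 * L)) := by
      refine le_trans hE (mul_le_mul_of_nonneg_right ?_ (by positivity))
      rw [two_mul ((1 / (n : ℝ)) ^ (3 * j))]
      exact add_le_add hnum1 hnum2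
    rw [hpairs] at hE'
    push_cast at hE'
    have hnj : (0 : ℝ) < (1 / (n : ℝ)) ^ j := by positivity
    simp only [hrj, forall_const]
    rw [hJL]
    refine le_trans (BPART.markov
      (fun b : Fin q → Alt n => (Nat.card {w : Fin (64 * L) → K × (Fin q × Bool) //
        2 * F ≤ nfix (bwd g (cb b) w)} : ℝ)) (fun b => Nat.cast_nonneg _)
      ((1 / (n : ℝ)) ^ j * (Fintype.card (K × (Fin q × Bool)) : ℝ) ^ (64 * L))
      (2 * (1 / (n : ℝ)) ^ (2 * j) * (Fintype.card (Alt n) : ℝ) ^ q) (by positivity) ?_) ?_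
    · refine le_trans hE' (le_of_eq ?_)
      have e : (1 / (n : ℝ)) ^ (3 * j) = (1 / (n : ℝ)) ^ (2 * j) * (1 / (n : ℝ)) ^ j := by
        rw [← pow_add]
        congr 1
        ring
      rw [e]
      ring
    · apply mul_le_mul_of_nonneg_right _ (by positivity)
      apply mul_le_mul_of_nonneg_left _ (by norm_num)
      apply pow_le_pow_of_le_one (by positivity)
      · rw [one_div]
        exact inv_le_one_of_one_le₀ hn1
      · omega
  -- union
  have hU := BPART.union_bound' (X := Fin q → Alt n)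
    (fun j b => r ≤ j → (Nat.card {w : Fin (2 * LL r j) → K × (Fin q × Bool) //
        2 * F ≤ nfix (bwd g (cb b) w)} : ℝ) ≤
      (1 / (n : ℝ)) ^ j * (Fintype.card (K × (Fin q × Bool)) : ℝ) ^ (2 * LL r j))
    (Rr (s + δ) n) _ hlevel (fun b => ¬ GoodE δ s g (cb b)) (by
      intro b hb
      unfold GoodE at hb
      push Not at hb
      obtain ⟨j, h1, h2, h3⟩ := hb
      rw [← hrd] at h1 h3
      rw [← hFd] at h3
      refine ⟨j, hr1.trans h1, h2, fun h => ?_⟩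
      exact absurd (h h1) (not_le.2 h3))
  refine le_trans hU ?_
  have hm : (Rr (s + δ) n : ℝ) ≤ n / 2 := by
    have h5 : (Rr (s + δ) n : ℝ) ≤ (n : ℝ) ^ (s + δ) := Nat.floor_le (by positivity)
    rw [hSD] at h5
    refine h5.trans (hSD2.trans ?_)
    apply div_le_div_of_nonneg_left hn0.le (by norm_num)
    rw [hDd]
    have h6 : (1 : ℝ) ≤ H ^ 2 := one_le_pow₀ (by linarith)
    nlinarith
  calc (Rr (s + δ) n : ℝ) * (2 * (1 / (n : ℝ)) ^ 2 * (Fintype.card (Alt n) : ℝ) ^ q) ≤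
      n / 2 * (2 * (1 / (n : ℝ)) ^ 2 * (Fintype.card (Alt n) : ℝ) ^ q) := by gcongr
    _ = 1 / (n : ℝ) * (Fintype.card (Alt n) : ℝ) ^ q := by
      field_simp

end TE852
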